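import Pool.Agent.N110.DV.SMain

/-!
Nef divisors whose class is invariant under commuting dominant rational self-maps: a bound for the
numerical dimension by the growth rank, abundance, and triviality if the growth rank is maximal.
-/

set_option autoImplicit false

open FF Pool.Agent.W602.GT Pool.Agent.Y172 Pool.Agent.R887 Pool.Agent.N110 Pool.Agent.N110.DV

/-- Let `X` be a normal projective variety of dimension `n ≥ 1`, with generic point `y` (a klt
variety with torsion canonical class, for instance), and `L` a nef `ℚ`-divisor on `X`. Let `ℕ ^ r`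
act on `X` by dominant rational self-maps `f_a` (commuting dominant rational self-maps
`f_1, ..., f_r`, invertible or not), given by the endomorphisms `φ a = f_a^*` of the function field.
Suppose that they contract no prime divisors and preserve the class of `L`: the divisors
`L - f_a^* L` are pseudo-effective (if `K_X` is torsion and `X` terminal, no dominant rational
self-map contracts a divisor). Let `s ≥ 1` be at most the growth rank: for `u` in `ℤ ^ r` with
positive part `a` and negative part `b` the degree `D(u)` of the correspondence `f_a ∘ f_b⁻¹` is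
`f_a^* H · (f_b^* H) ^ (n - 1) / deg f_b`, and `D` grows subexponentially only along linear subspaces
of `ℝ ^ r` of codimension at least `s`. For instance `s = r` if `max (D(u), D(-u)) ≥ c exp (δ |u|)`
for some `c, δ > 0`. Then `s ≤ n`, the numerical dimension of `L` is at most `n - s`, and so is the
Iitaka dimension. If the Iitaka dimension is at least `n - s` then the Iitaka dimension and the
numerical dimension of `L` are equal. If `s = n` and the irregularity of `X` is zero, then `L` is
torsion: `m L` is the divisor of a rational function for some `m ≥ 1`. -/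
theorem Pool.Agent.Results.MP_cda8c3_ag.CommutingSelfMaps.result
    {K : Type} [Field K] [Algebra ℂ K] {N n : ℕ} {y : Fin (N + 1) → K} (hy : NormalModel y)
    (hn : Algebra.trdeg ℂ K = n) (hn0 : 0 < n) {L : Place ℂ K → ℚ}
    (hL : {P | IsPrimeDivisor y P ∧ L P ≠ 0}.Finite) (hnef : NefD y n L) {r s : ℕ} (hs : 0 < s)
    {φ : (Fin r → ℕ) → (K →ₐ[ℂ] K)} (hφ : ∀ u v, φ (u + v) = φ u * φ v)
    (hcl : ∀ v, SelfClassLe (φ v) y L)
    (hrank : SE.CorrRankGe φ y n s ∨ (s = r ∧ SE.CorrExpGrowth φ y n)) :
    s ≤ n ∧ NuLt y n L (n - s + 1) ∧ ¬ IitakaGe y L (n - s + 1) ∧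
      (IitakaGe y L (n - s) → AbundantD y n L) ∧
      (s = n → IrregularityZero y → ∃ m : ℕ, 1 ≤ m ∧ ∃ g : K, g ≠ 0 ∧
        ∀ P, IsPrimeDivisor y P → (P.ord g : ℚ) = m * L P) := by
  have hrank' : SE.CorrRankGe φ y n s := by
    rcases hrank with h | ⟨rfl, h⟩
    · exact h
    · exact SE.corrRank_of_exp h
  obtain ⟨h1, h2⟩ := semi_mainD hy hn hn0 hL hnef hs hφ hcl hrank'
  refine ⟨h1, h2, iitaka_lt hy hn (by omega) h2, fun h => ⟨n - s, h, h2⟩, fun h3 hq => ?_⟩
  rw [show n - s + 1 = 1 by omega] at h2
  obtain ⟨m, hm, g, hg0, hg⟩ := trivialD hy hn hn0 hL hq hnef h2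
  refine ⟨m, hm, g⁻¹, inv_ne_zero hg0, fun P hP => ?_⟩
  have h4 := hg P hP
  rw [P.ord_inv]
  push_cast
  linarith
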