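import Pool.Agent.N110.DV.Im
import Pool.Agent.N110.DV.Main
import Pool.Agent.N110.QG.Div

/-!
Divisors on varieties which are dominated by a variety with a group of birational self-maps of more
than quadratic growth which preserve the class of a divisor.
-/

set_option autoImplicit false

open FF Pool.Agent.W602.GT Pool.Agent.Y172 Pool.Agent.R887 Pool.Agent.N110 Pool.Agent.N110.DV

/-- Let `X'` be a normal projective variety of dimension `n ≥ 2` with generic point `y'`, and `L'` a
`ℚ`-divisor on `X'`. Let `S` be a set of birational self-maps `f` of `X'` of bounded degrees (a finite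
set, for instance) which are isomorphisms in codimension one (on a variety with terminal
singularities and torsion canonical class every birational self-map is one), given by the
automorphisms `φ = f^*` of the function field, and suppose that they preserve the numerical class of
`L'` (the divisors `L' - f^* L'` and `L' - (f⁻¹)^* L'` are pseudo-effective). Suppose that the degrees
of the products of `l` maps of `S` are not at most `A * (l + 1) ^ 2`, for any constant `A`.

Let `X` be any normal projective variety and `L` a `ℚ`-divisor on `X`, and let `X' ⇢ X` be a dominant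
generically finite rational map, given by the homomorphism `π` of the function fields, which
contracts no prime divisors, such that `L' - π^* L` is pseudo-effective (for instance a finite
quotient map and `L' = π^* L`). The map has nothing to do with the maps in `S`.
Then the numerical dimension of `L` is at most `n - 2`, and so is the Iitaka dimension; if the Iitaka
dimension is at least `n - 2` then the Iitaka dimension and the numerical dimension of `L` are equal.
(If the numerical dimension of `L` is at least `n - 1`, the degrees are at most `A * (l + 1) ^ 2`.) -/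
theorem Pool.Agent.Results.MP_cda8c3_ag.DominatedDivisorsQuadratic.result
    {K K' : Type} [Field K] [Algebra ℂ K] [Field K'] [Algebra ℂ K'] {N N' n : ℕ}
    {y : Fin (N + 1) → K} {y' : Fin (N' + 1) → K'} (hy : NormalModel y) (hy' : NormalModel y')
    (hn : Algebra.trdeg ℂ K = n) (hn' : Algebra.trdeg ℂ K' = n) (hn2 : 2 ≤ n)
    {L' : Place ℂ K' → ℚ} (hL' : {P | IsPrimeDivisor y' P ∧ L' P ≠ 0}.Finite)
    {S : Set (K' ≃ₐ[ℂ] K')}
    (hiso : ∀ φ ∈ S, PseudoAut φ y') (h1 : ∀ φ ∈ S, ClassLe φ y' L')
    (h2 : ∀ φ ∈ S, ClassLe φ⁻¹ y' L') {B : ℕ} (hB : ∀ φ ∈ S, mixedDegree φ y' n 1 ≤ B)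
    {L : Place ℂ K → ℚ} {π : K →ₐ[ℂ] K'} (hπ : ImgClassLe π y L y' L') :
    (¬ NuLt y n L (n - 1) → ∃ A : ℝ, ∀ w : List (K' ≃ₐ[ℂ] K'), (∀ φ ∈ w, φ ∈ S) →
      mixedDegree w.prod y' n 1 ≤ ENNReal.ofReal (A * (w.length + 1) ^ 2)) ∧
    ((∀ A : ℝ, ∃ w : List (K' ≃ₐ[ℂ] K'), (∀ φ ∈ w, φ ∈ S) ∧
      ENNReal.ofReal (A * (w.length + 1) ^ 2) < mixedDegree w.prod y' n 1) →
      NuLt y n L (n - 1) ∧ ¬ IitakaGe y L (n - 1) ∧
        (IitakaGe y L (n - 2) → AbundantD y n L)) := by
  have h3 : ¬ NuLt y n L (n - 1) → ∃ A : ℝ, ∀ w : List (K' ≃ₐ[ℂ] K'), (∀ φ ∈ w, φ ∈ S) →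
      mixedDegree w.prod y' n 1 ≤ ENNReal.ofReal (A * (w.length + 1) ^ 2) := fun h =>
    QG.quadraticD hy' hn' hn2 hL' hiso h1 h2 hB fun h4 =>
      h (nuLt_img hy hy' hn hn' hπ (Nat.sub_le _ _) h4)
  refine ⟨h3, fun h4 => ?_⟩
  have h5 : NuLt y n L (n - 1) := by
    by_contra h5
    obtain ⟨A, hA⟩ := h3 h5
    obtain ⟨w, hw, hlt⟩ := h4 A
    exact absurd hlt (not_lt.2 (hA w hw))
  refine ⟨h5, iitaka_lt hy hn (Nat.sub_le _ _) h5, fun h => ⟨n - 2, h, ?_⟩⟩
  rwa [show n - 2 + 1 = n - 1 by omega]
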