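import Pool.Agent.N110.DV.Main

/-!
Divisors whose class is invariant under an abelian group of birational self-maps: a bound for the
numerical dimension by the growth rank, abundance, and triviality if the growth rank is maximal.
-/

set_option autoImplicit false

open FF Pool.Agent.W602.GT Pool.Agent.Y172 Pool.Agent.R887 Pool.Agent.N110 Pool.Agent.N110.DV

/-- Let `X` be a normal projective variety of dimension `n ≥ 1`, with generic point `y` (a klt
variety with torsion canonical class, for instance), and `L` a `ℚ`-divisor on `X`. Let `ℤ ^ r` act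
by birational self-maps `f_v` of `X` which are isomorphisms in codimension one (if `K_X` is torsion
and `X` terminal, every birational self-map is one), given by the automorphisms `φ v = f_v^*` of the
function field, and suppose that they preserve the numerical class of `L` (the divisors `L - f_v^* L`
are pseudo-effective). Let `s ≥ 1` be at most the growth rank of the action: the degrees
`f_v^* H · H ^ (n - 1)` grow subexponentially only along subspaces of `ℝ ^ r` of codimension at least
`s`. For instance `s = r ≥ 1` if the degrees are at least `c exp (δ |v|)` for some `c, δ > 0`. Then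
`s ≤ n - 1`, the numerical dimension of `L` is at most `n - 1 - s`, and so is the Iitaka dimension. If
the Iitaka dimension is at least `n - 1 - s` then the Iitaka dimension and the numerical dimension of
`L` are equal. If `s = n - 1`, `L` is nef and the irregularity of `X` is zero, then `L` is torsion:
`m L` is the divisor of a rational function for some `m ≥ 1`. -/
theorem Pool.Agent.Results.MP_cda8c3_ag.InvariantDivisors.result
    {K : Type} [Field K] [Algebra ℂ K] {N n : ℕ} {y : Fin (N + 1) → K} (hy : NormalModel y)
    (hn : Algebra.trdeg ℂ K = n) (hn0 : 0 < n) {L : Place ℂ K → ℚ}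
    (hL : {P | IsPrimeDivisor y P ∧ L P ≠ 0}.Finite) {r s : ℕ} (hs : 0 < s)
    {φ : (Fin r → ℤ) → (K ≃ₐ[ℂ] K)} (hφ : ∀ u v, φ (u + v) = φ u * φ v)
    (hiso : ∀ v, PseudoAut (φ v) y) (hcl : ∀ v, ClassLe (φ v) y L)
    (hrank : GrowthRankGe φ y n s ∨ (s = r ∧ ExpGrowth φ y n)) :
    s < n ∧ NuLt y n L (n - s) ∧ ¬ IitakaGe y L (n - s) ∧
      (IitakaGe y L (n - s - 1) → AbundantD y n L) ∧
      (s + 1 = n → NefD y n L → IrregularityZero y → ∃ m : ℕ, 1 ≤ m ∧ ∃ g : K, g ≠ 0 ∧
        ∀ P, IsPrimeDivisor y P → (P.ord g : ℚ) = m * L P) := by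
  have hrank' : GrowthRankGe φ y n s := by
    rcases hrank with h | ⟨rfl, h⟩
    · exact h
    · exact RK.growthRank_of_exp h
  obtain ⟨h1, h2⟩ := rank_mainD hy hn hn0 hL hs hφ hiso hcl hrank'
  refine ⟨h1, h2, iitaka_lt hy hn (Nat.sub_le _ _) h2, fun h => ⟨n - s - 1, h, ?_⟩,
    fun h3 hnef hq => ?_⟩
  · rwa [show n - s - 1 + 1 = n - s by omega]
  · rw [show n - s = 1 by omega] at h2
    obtain ⟨m, hm, g, hg0, hg⟩ := trivialD hy hn hn0 hL hq hnef h2
    refine ⟨m, hm, g⁻¹, inv_ne_zero hg0, fun P hP => ?_⟩
    have h4 := hg P hP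
    rw [P.ord_inv]
    push_cast
    linarith
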