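import Pool.Agent.N110.CC.R

/-!
Divisors on finite images of varieties with an abelian group of pseudo-automorphisms of maximal rank.
-/

set_option autoImplicit false

open FF Pool.Agent.W602.GT Pool.Agent.Y172 Pool.Agent.R887 Pool.Agent.N110 Pool.Agent.N110.NV
open Pool.Agent.N492.PA Pool.Agent.N110.CC

/-- Let `X'` be a normal projective variety of dimension `n ≥ 1`, with generic point `y'`. Let the
vectors `c' P` be the classes of the prime divisors in `N¹(X') = ℤ ^ (r + 1)`, `r ≥ 1` (if `X'` is
`ℚ`-factorial then `r + 1` is the Picard number of `X'`). Let `ℤ ^ r` act on `X'` by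
pseudo-automorphisms `f_v`, given by the automorphisms `φ v = f_v^*` of the function field, and
suppose that `f_v` has positive entropy (the first dynamical degree is greater than `1`) for all
`v ≠ 0`. So the rank of the group is the Picard number of `X'` minus one.

Let `X' → X` be a finite morphism onto a normal projective variety `X`, for instance `X = X'` or the
quotient by a finite group, given by the homomorphism `π` of the function fields (more generally, a
rational map which is a finite morphism in codimension one). The morphism has nothing to do with the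
maps `f_v`. Let `L` be a pseudo-effective `ℚ`-divisor on `X`, for instance a nef divisor.

Then `L` is numerically trivial (`-L` is pseudo-effective, too) or big. If it is not big and the
irregularity of `X` is zero, then it is torsion: `m L` is the divisor of a rational function for some
`m ≥ 1`. -/
theorem Pool.Agent.Results.MP_cda8c3_ag.MaximalRankImages.result
    {K K' : Type} [Field K] [Algebra ℂ K] [Field K'] [Algebra ℂ K'] {N N' n r : ℕ}
    {y : Fin (N + 1) → K} {y' : Fin (N' + 1) → K'} (hy : NormalModel y) (hy' : NormalModel y')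
    (hn : Algebra.trdeg ℂ K = n) (hn' : Algebra.trdeg ℂ K' = n) (hn0 : 0 < n) (hr : 0 < r)
    {c' : Place ℂ K' → Fin (r + 1) → ℤ} (hc' : PicardBasis y' c')
    {φ : (Fin r → ℤ) → (K' ≃ₐ[ℂ] K')} (hφ : ∀ u v, φ (u + v) = φ u * φ v)
    (hps : ∀ v, PseudoAut (φ v) y') (hent : ∀ v, v ≠ 0 → 1 < dynDegree (φ v) y' n 1)
    {π : K →ₐ[ℂ] K'} (hπ : FiniteMap π y y')
    {L : Place ℂ K → ℚ} (hL : {P | IsPrimeDivisor y P ∧ L P ≠ 0}.Finite) (hpsef : PsefD y L) :
    (PsefD y (fun P => -L P) ∧ (IrregularityZero y → ∃ m : ℕ, 1 ≤ m ∧ ∃ f : K, f ≠ 0 ∧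
      ∀ P, IsPrimeDivisor y P → (P.ord f : ℚ) = m * L P)) ∨ BigD y L := by
  rcases rigid_img hy hy' hn hn' hn0 hc' (V := Set.univ)
    (fun q _ h1 h2 => rat_int hy' hn' hn0 hr hc' hφ hps hent h1 h2) hπ hL
    (fun _ _ _ => Set.mem_univ _) hpsef with h | h
  · exact Or.inl ⟨h, fun hq => torsion hy hq hL hpsef h⟩
  · exact Or.inr h
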